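import Pool.Agent.Helper73.Dn.Goals
import Mathlib

/-!
# Density law for `2 ^ k + 3 ^ k` (MP_70814c_an), packet PT
-/

set_option autoImplicit false

open Pool.Agent.Helper17.Rg Pool.Agent.Helper73.Dn

namespace Pool.Agent.Helper39.Dn

theorem di_add_int (a : ℝ) (z : ℤ) : di (a + z) = di a := by
  unfold di
  rw [round_add_intCast]
  push_cast
  congr 1
  ring

theorem di_of_lt (a : ℝ) (h : |a| < 1 / 2) : di a = |a| := by
  have h0 : round a = 0 := by
    rw [round_eq_zero_iff]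
    rw [abs_lt] at h
    exact ⟨by linarith, h.2⟩
  unfold di
  rw [h0, Int.cast_zero, sub_zero]

theorem card_le (G : Finset ℕ) (L a b : ℝ) (hL : 0 < L)
    (hG : ∀ k ∈ G, a ≤ (k : ℝ) * L ∧ (k : ℝ) * L ≤ b) (hab : a ≤ b + L) :
    L * G.card ≤ b - a + L := by
  rcases G.eq_empty_or_nonempty with rfl | hne
  · rw [Finset.card_empty, Nat.cast_zero, mul_zero]
    linarith
  · have hsub : G ⊆ Finset.Icc (G.min' hne) (G.max' hne) := fun k hk =>
      Finset.mem_Icc.2 ⟨G.min'_le k hk, G.le_max' k hk⟩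
    have hc := Finset.card_le_card hsub
    rw [Nat.card_Icc] at hc
    have hle : G.min' hne ≤ G.max' hne := G.min'_le _ (G.max'_mem hne)
    have hc' : (G.card : ℝ) ≤ G.max' hne + 1 - G.min' hne := by
      have h0 : G.card + G.min' hne ≤ G.max' hne + 1 := by omega
      have h2 : ((G.card + G.min' hne : ℕ) : ℝ) ≤ ((G.max' hne + 1 : ℕ) : ℝ) := by
        exact_mod_cast h0
      push_cast at h2
      linarith
    have h1 := (hG _ (G.min'_mem hne)).1
    have h2 := (hG _ (G.max'_mem hne)).2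
    have h3 := mul_le_mul_of_nonneg_left hc' hL.le
    nlinarith

theorem ends_sub (S Bd G : Finset ℕ) (hGS : G ⊆ S) (hB : ∀ k ∈ S, k ∉ G → k ∈ Bd) :
    (ends G).card ≤ (ends S).card + Bd.card := by
  have h0 : ends G ⊆ ends S ∪ Bd.image (fun k => k - 1) := by
    intro k hk
    unfold ends at hk
    rw [Finset.mem_filter] at hk
    rw [Finset.mem_union]
    by_cases h : k + 1 ∈ S
    · exact Or.inr (Finset.mem_image.2 ⟨k + 1, hB _ h hk.2, by omega⟩)
    · exact Or.inl (Finset.mem_filter.2 ⟨hGS hk.1, h⟩)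
  refine (Finset.card_le_card h0).trans ((Finset.card_union_le _ _).trans ?_)
  exact Nat.add_le_add_left Finset.card_image_le _

theorem sum_int (m' g : ℕ) (l : Fin m' → ℕ) (X : Fin m' → ℚ)
    (hX : ∀ c, ∃ k : ℤ, X c * (g : ℚ) ^ l c = k) (P : Finset (Fin m')) :
    ∃ k : ℤ, (∑ c ∈ P, X c) * (g : ℚ) ^ (∑ c, l c) = k := by
  choose k hk using hX
  refine ⟨∑ c ∈ P, k c * (g : ℤ) ^ (∑ c, l c - l c), ?_⟩
  rw [Finset.sum_mul, Int.cast_sum]
  refine Finset.sum_congr rfl fun c _ => ?_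
  rw [Int.cast_mul, ← hk, Int.cast_pow, Int.cast_natCast, mul_assoc, ← pow_add,
    Nat.add_sub_cancel' (Finset.single_le_sum (fun _ _ => Nat.zero_le _) (Finset.mem_univ c))]

theorem core (h4 : ZInt) (m' : ℕ) (y e : ℝ) (l2 l3 : Fin m' → ℕ) (X2 X3 : Fin m' → ℚ)
    (hX2 : ∀ c, ∃ k : ℤ, X2 c * (2 : ℕ) ^ l2 c = k) (hX3 : ∀ c, ∃ k : ℤ, X3 c * (3 : ℕ) ^ l3 c = k)
    (P2 P3 : Finset (Fin m')) (heq : ∑ c ∈ P2, X2 c = ∑ c ∈ P3, X3 c) (hy : |y| ≤ 1 / 2)
    (hy2 : |y - ((∑ c ∈ P2, X2 c : ℚ) : ℝ)| ≤ e) (he : e < |y|) : False := by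
  obtain ⟨k2, hk2⟩ := sum_int m' 2 l2 X2 hX2 P2
  obtain ⟨k3, hk3⟩ := sum_int m' 3 l3 X3 hX3 P3
  rw [← heq] at hk3
  obtain ⟨k, hk⟩ := h4 _ _ _ k2 k3 hk2 hk3
  rw [hk, Rat.cast_intCast] at hy2
  by_cases h0 : k = 0
  · rw [h0, Int.cast_zero, sub_zero] at hy2
    linarith
  · have h1 : (1 : ℝ) ≤ |(k : ℝ)| := by
      rw [← Int.cast_abs]
      exact_mod_cast Int.one_le_abs h0
    have h2 : |(k : ℝ)| ≤ |y - k| + |y| := by
      have h3 : (k : ℝ) = -(y - k) + y := by ring
      calc |(k : ℝ)| = |-(y - k) + y| := by rw [← h3]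
        _ ≤ |-(y - k)| + |y| := abs_add_le _ _
        _ = _ := by rw [abs_neg]
    linarith

theorem log3_le : Real.log 3 ≤ 2 := by
  have h := Real.log_le_sub_one_of_pos (x := 3) (by norm_num)
  linarith

theorem log3_ge : 1 ≤ Real.log 3 := by
  rw [Real.le_log_iff_exp_le (by norm_num)]
  linarith [Real.exp_one_lt_d9]

theorem log2_le : Real.log 2 ≤ 1 := by linarith [Real.log_two_lt_d9]

theorem log2_ge : 1 / 2 ≤ Real.log 2 := by linarith [Real.log_two_gt_d9]

/-- the logarithmic form of `1 / 2 ≤ g ^ k |y|` -/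
theorem log_form (g y : ℝ) (k : ℕ) (hg : 0 < g) (hy : 0 < |y|) :
    1 / 2 ≤ g ^ k * |y| ↔ -Real.log |y| - Real.log 2 ≤ k * Real.log g := by
  have hpos : 0 < g ^ k * |y| := mul_pos (pow_pos hg k) hy
  have h1 : Real.log (g ^ k * |y|) = k * Real.log g + Real.log |y| := by
    rw [Real.log_mul (pow_pos hg k).ne' hy.ne', Real.log_pow]
  have h2 : Real.log (1 / 2) = -Real.log 2 := by
    rw [one_div, Real.log_inv]
  rw [← Real.log_le_log_iff (by norm_num) hpos, h1, h2]
  constructor <;> intro h <;> linarith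

open Classical in
theorem count (n m : ℕ) (S : Finset ℕ) (ε : ℝ)
    (hST : ∀ k ∈ S, (k : ℝ) * Real.log 2 ≤ n * Real.log 3)
    (hbud : (1 + ε) * (n * Real.log 3) ≤
      Real.log 2 * (S.card : ℝ) + Real.log 3 * ((S.filter (fun k => k ≤ n)).card : ℝ))
    (G : Finset ℕ) (hGS : G ⊆ S) (hcard : (S \ G).card ≤ m) (y : ℝ) (k1 : ℕ)
    (hk1 : ∀ k ∈ S, k1 ≤ k) (hx : 1 / (4 * 3 ^ k1) ≤ |y|) (hy : |y| ≤ 1 / 2)
    (h3 : ∀ k ∈ G, k ≤ n → 1 / 2 ≤ (3 : ℝ) ^ k * |y|)
    (hT : 3 * m + 20 ≤ ε * (n * Real.log 3)) :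
    (1 + ε) * (n * Real.log 3) + Real.log |y| - 3 * m ≤
      Real.log 2 * ((G.filter fun k => 1 / 2 ≤ (2 : ℝ) ^ k * |y|).card : ℝ) +
        Real.log 3 * ((G.filter fun k => k ≤ n).card : ℝ) ∧
    (G.filter fun k => 1 / 2 ≤ (2 : ℝ) ^ k * |y|).Nonempty ∧
    (G.filter fun k => k ≤ n).Nonempty := by
  have l3 := log3_le
  have l3' := log3_ge
  have l2 := log2_le
  have l2' := log2_ge
  have hypos : 0 < |y| := lt_of_lt_of_le (by positivity) hx
  obtain ⟨τ, hτ⟩ : ∃ τ, τ = -Real.log |y| := ⟨_, rfl⟩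
  obtain ⟨T, hTd⟩ : ∃ T, T = n * Real.log 3 := ⟨_, rfl⟩
  rw [← hTd] at hST hbud hT ⊢
  have hT0 : 0 ≤ T := by
    rw [hTd]
    positivity
  have hτ0 : 0 ≤ τ := by
    rw [hτ, neg_nonneg]
    exact Real.log_nonpos hypos.le (by linarith)
  -- sizes
  have hS : (S.card : ℝ) ≤ G.card + m := by
    have h0 : (S \ G).card + G.card = S.card := Finset.card_sdiff_add_card_eq_card hGS
    have h1 : S.card ≤ G.card + m := by omega
    exact_mod_cast h1
  have hSn : ((S.filter fun k => k ≤ n).card : ℝ) ≤ (G.filter fun k => k ≤ n).card + m := by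
    have h0 : (S.filter fun k => k ≤ n) ⊆ (G.filter fun k => k ≤ n) ∪ (S \ G) := by
      intro k hk
      rw [Finset.mem_filter] at hk
      rw [Finset.mem_union, Finset.mem_filter, Finset.mem_sdiff]
      by_cases h : k ∈ G
      · exact Or.inl ⟨h, hk.2⟩
      · exact Or.inr ⟨hk.1, h⟩
    have h1 := (Finset.card_le_card h0).trans (Finset.card_union_le _ _)
    have h2 : (S.filter fun k => k ≤ n).card ≤ (G.filter fun k => k ≤ n).card + m := by omega
    exact_mod_cast h2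
  have hG : Real.log 2 * (G.card : ℝ) ≤
      Real.log 2 * ((G.filter fun k => 1 / 2 ≤ (2 : ℝ) ^ k * |y|).card : ℝ) + τ := by
    have h0 : (G.filter fun k => ¬ 1 / 2 ≤ (2 : ℝ) ^ k * |y|) ⊆
        Finset.range ⌊τ / Real.log 2⌋₊ := by
      intro k hk
      rw [Finset.mem_filter, log_form 2 y k (by norm_num) hypos, ← hτ] at hk
      rw [Finset.mem_range, Nat.lt_iff_add_one_le]
      refine Nat.le_floor ?_
      rw [le_div_iff₀ (by linarith)]
      push_cast
      linarith [hk.2]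
    have h1 := Finset.card_le_card h0
    rw [Finset.card_range] at h1
    have h2 : ((G.filter fun k => ¬ 1 / 2 ≤ (2 : ℝ) ^ k * |y|).card : ℝ) ≤ τ / Real.log 2 :=
      le_trans (by exact_mod_cast h1) (Nat.floor_le (div_nonneg hτ0 (by linarith)))
    rw [le_div_iff₀ (by linarith)] at h2
    have h3 : ((G.filter fun k => 1 / 2 ≤ (2 : ℝ) ^ k * |y|).card : ℝ) +
        ((G.filter fun k => ¬ 1 / 2 ≤ (2 : ℝ) ^ k * |y|).card : ℝ) = G.card := by
      exact_mod_cast Finset.card_filter_add_card_filter_not (s := G)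
        fun k => 1 / 2 ≤ (2 : ℝ) ^ k * |y|
    rw [← h3]
    linarith
  have hm0 : (0 : ℝ) ≤ m := Nat.cast_nonneg m
  have hstar : (1 + ε) * T - τ - 3 * m ≤
      Real.log 2 * ((G.filter fun k => 1 / 2 ≤ (2 : ℝ) ^ k * |y|).card : ℝ) +
        Real.log 3 * ((G.filter fun k => k ≤ n).card : ℝ) := by
    have h1 : Real.log 2 * (S.card : ℝ) ≤ Real.log 2 * G.card + Real.log 2 * m := by
      rw [← mul_add]
      exact mul_le_mul_of_nonneg_left hS (by linarith)
    have h2 : Real.log 3 * ((S.filter fun k => k ≤ n).card : ℝ) ≤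
        Real.log 3 * ((G.filter fun k => k ≤ n).card : ℝ) + Real.log 3 * m := by
      rw [← mul_add]
      exact mul_le_mul_of_nonneg_left hSn (by linarith)
    have h3 : Real.log 2 * m ≤ 1 * m := mul_le_mul_of_nonneg_right l2 hm0
    have h4 : Real.log 3 * m ≤ 2 * m := mul_le_mul_of_nonneg_right l3 hm0
    linarith
  -- `τ ≤ T + 2 log 2`
  have hτT : τ ≤ T + 2 * Real.log 2 := by
    have h0 : Real.log 2 * (S.card : ℝ) ≤ T - 0 + Real.log 2 :=
      card_le S (Real.log 2) 0 T (by linarith) (fun k hk =>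
        ⟨by positivity, hST k hk⟩) (by linarith)
    have h1 : (S.filter fun k => k ≤ n).Nonempty := by
      rw [← Finset.card_pos]
      by_contra hne
      rw [not_lt, Nat.le_zero] at hne
      rw [hne, Nat.cast_zero, mul_zero] at hbud
      linarith
    obtain ⟨k, hk⟩ := h1
    rw [Finset.mem_filter] at hk
    have h2 : k1 ≤ n := (hk1 k hk.1).trans hk.2
    have h3 : 1 / (4 * (3 : ℝ) ^ n) ≤ |y| := by
      refine le_trans ?_ hx
      have h4 : (3 : ℝ) ^ k1 ≤ 3 ^ n := pow_le_pow_right₀ (by norm_num) h2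
      exact one_div_le_one_div_of_le (by positivity) (by linarith)
    have h4 := Real.log_le_log (by positivity) h3
    rw [one_div, Real.log_inv, Real.log_mul (by norm_num) (by positivity), Real.log_pow,
      show (4 : ℝ) = 2 ^ 2 by norm_num, Real.log_pow] at h4
    push_cast at h4
    rw [hτ, hTd]
    linarith
  have hG3 : Real.log 3 * ((G.filter fun k => k ≤ n).card : ℝ) ≤
      T - (τ - Real.log 2) + Real.log 3 := by
    refine card_le _ _ _ _ (by linarith) (fun k hk => ?_) (by linarith)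
    rw [Finset.mem_filter] at hk
    have h5 := (log_form 3 y k (by norm_num) hypos).1 (h3 k hk.1 hk.2)
    refine ⟨by rw [hτ]; exact h5, ?_⟩
    rw [hTd]
    exact mul_le_mul_of_nonneg_right (by exact_mod_cast hk.2) (by linarith)
  have hG2 : Real.log 2 * ((G.filter fun k => 1 / 2 ≤ (2 : ℝ) ^ k * |y|).card : ℝ) ≤
      T - (τ - Real.log 2) + Real.log 2 := by
    refine card_le _ _ _ _ (by linarith) (fun k hk => ?_) (by linarith)
    rw [Finset.mem_filter, log_form 2 y k (by norm_num) hypos] at hk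
    exact ⟨by rw [hτ]; exact hk.2, hST k (hGS hk.1)⟩
  refine ⟨by rw [hτ] at hstar; linarith, ?_, ?_⟩
  · rw [Finset.nonempty_iff_ne_empty]
    intro he
    rw [he, Finset.card_empty, Nat.cast_zero, mul_zero] at hstar
    linarith
  · rw [Finset.nonempty_iff_ne_empty]
    intro he
    rw [he, Finset.card_empty, Nat.cast_zero, mul_zero] at hstar
    linarith

theorem cast_filter_sum {m' : ℕ} (X : Fin m' → ℚ) (s : Fin m' → ℝ) (σ : ℝ) :
    ((∑ c ∈ Finset.univ.filter (fun c => s c < σ), X c : ℚ) : ℝ) =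
      ∑ c, (if s c < σ then (X c : ℝ) else 0) := by
  rw [Rat.cast_sum, Finset.sum_filter]

theorem di_sub (x : ℝ) (g k : ℕ) : di ((g : ℝ) ^ k * (x - round x)) = di ((g : ℝ) ^ k * x) := by
  have h : (g : ℝ) ^ k * (x - round x) = (g : ℝ) ^ k * x + ((-((g : ℤ) ^ k * round x) : ℤ) : ℝ) := by
    push_cast
    ring
  rw [h, di_add_int]

open Classical in
theorem pt (h1 : RelZ) (h2 : Thr) (h3 : DigW) (h4 : Pool.Agent.Helper17.Rg.ZInt) : Pt := by
  intro ε J m hε
  have l3 := log3_le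
  have l3' := log3_ge
  have l2 := log2_le
  have l2' := log2_ge
  obtain ⟨m', hm'⟩ : ∃ m', m' = J + m + 1 := ⟨_, rfl⟩
  obtain ⟨g, hg⟩ : ∃ g : Fin (m' + m') → Bool,
    g = Fin.append (fun _ => false) (fun _ => true) := ⟨_, rfl⟩
  obtain ⟨lam0, hlam0⟩ : ∃ lam0 : Fin (m' + m') → ℚ,
    lam0 = Fin.append (fun _ => 1) (fun _ => -1) := ⟨_, rfl⟩
  obtain ⟨δ, hδd⟩ : ∃ δ : ℝ, δ = ε / (8 * (((m' + m' : ℕ) : ℝ) + 1)) := ⟨_, rfl⟩
  have hδ : 0 < δ := by
    rw [hδd]
    positivity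
  have hrel := fun P : Finset (Fin (m' + m')) =>
    h1 (m' + m') g (fun c => if c ∈ P then lam0 c else 0) 10 δ hδ
  choose t0 ht0 using hrel
  obtain ⟨C0, hC0⟩ : ∃ C0 : ℝ, C0 = ∑ P, |t0 P| + 1 + (2 / ε) * (3 * m + 3 * m' + 20) +
    ((m' + m' : ℕ) : ℝ) / δ := ⟨_, rfl⟩
  refine ⟨⌈C0⌉₊, fun n hn S hS hST hbud x k1 hk1 hx => ?_⟩
  by_contra hno
  push Not at hno
  obtain ⟨T, hTd⟩ : ∃ T, T = n * Real.log 3 := ⟨_, rfl⟩
  have hTC : C0 ≤ T := by
    have h0 : C0 ≤ n := Nat.ceil_le.1 hn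
    have h5 : (n : ℝ) * 1 ≤ n * Real.log 3 := mul_le_mul_of_nonneg_left l3' (Nat.cast_nonneg n)
    rw [hTd]
    linarith
  have hS0 : 0 ≤ ∑ P, |t0 P| := Finset.sum_nonneg fun _ _ => abs_nonneg _
  have hE0 : 0 ≤ (2 / ε) * (3 * (m : ℝ) + 3 * m' + 20) := by positivity
  have hD0 : 0 ≤ ((m' + m' : ℕ) : ℝ) / δ := by positivity
  have hT1 : 1 ≤ T := by linarith
  have hTt : ∀ P, t0 P ≤ T := by
    intro P
    have h0 : |t0 P| ≤ ∑ P, |t0 P| :=
      Finset.single_le_sum (f := fun P => |t0 P|) (fun _ _ => abs_nonneg _) (Finset.mem_univ P)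
    linarith [le_abs_self (t0 P)]
  have hTε : 3 * (m : ℝ) + 3 * m' + 20 ≤ ε / 2 * T := by
    have h0 : (2 / ε) * (3 * (m : ℝ) + 3 * m' + 20) ≤ T := by linarith
    have h5 := mul_le_mul_of_nonneg_left h0 (by positivity : 0 ≤ ε / 2)
    have h6 : ε / 2 * ((2 / ε) * (3 * (m : ℝ) + 3 * m' + 20)) = 3 * (m : ℝ) + 3 * m' + 20 := by
      field_simp
    linarith
  have hTR : ((m' + m' : ℕ) : ℝ) ≤ δ * T := by
    have h0 : ((m' + m' : ℕ) : ℝ) / δ ≤ T := by linarith
    rw [div_le_iff₀ hδ] at h0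
    linarith
  -- the reduced number
  obtain ⟨y, hyd⟩ : ∃ y, y = x - round x := ⟨_, rfl⟩
  have hyx : |y| = di x := by
    rw [hyd]
    rfl
  have hyhalf : |y| ≤ 1 / 2 := by
    rw [hyd]
    exact abs_sub_round x
  rw [← hyx] at hx
  have hypos : 0 < |y| := lt_of_lt_of_le (by positivity) hx
  have hdi : ∀ g k : ℕ, di ((g : ℝ) ^ k * y) = di ((g : ℝ) ^ k * x) := by
    intro g k
    rw [hyd]
    exact di_sub x g k
  obtain ⟨G, hG⟩ : ∃ G, G = S.filter fun k => ¬ Bad x k := ⟨_, rfl⟩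
  have hGS : G ⊆ S := by
    rw [hG]
    exact Finset.filter_subset _ _
  have hSG : (S \ G).card ≤ m := by
    refine hno (S \ G) Finset.sdiff_subset fun k hk => ?_
    rw [hG, Finset.mem_sdiff, Finset.mem_filter] at hk
    by_contra hb
    exact hk.2 ⟨hk.1, hb⟩
  have hgood2 : ∀ k ∈ G, di (((2 : ℕ) : ℝ) ^ k * y) < 1 / 8 := by
    intro k hk
    rw [hG, Finset.mem_filter] at hk
    rw [hdi]
    by_contra hb
    exact hk.2 (Or.inl (by push_cast at hb; exact not_lt.1 hb))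
  have hgood3 : ∀ k ∈ G, di (((3 : ℕ) : ℝ) ^ k * y) < 1 / 8 := by
    intro k hk
    rw [hG, Finset.mem_filter] at hk
    rw [hdi]
    by_contra hb
    exact hk.2 (Or.inr (by push_cast at hb; exact not_lt.1 hb))
  have hlow3 : ∀ k ∈ G, k ≤ n → 1 / 2 ≤ (3 : ℝ) ^ k * |y| := by
    intro k hk _
    by_contra hb
    rw [not_le] at hb
    have h0 : |((3 : ℕ) : ℝ) ^ k * y| = (3 : ℝ) ^ k * |y| := by
      rw [abs_mul, abs_of_nonneg (by positivity)]
      push_cast
      rfl
    have h5 := di_of_lt (((3 : ℕ) : ℝ) ^ k * y) (by rw [h0]; exact hb)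
    have h6 := hgood3 k hk
    rw [h5, h0] at h6
    have h7 : (3 : ℝ) ^ k1 ≤ 3 ^ k := pow_le_pow_right₀ (by norm_num) (hk1 k (hGS hk))
    have h8 : (3 : ℝ) ^ k1 * |y| ≤ 3 ^ k * |y| := mul_le_mul_of_nonneg_right h7 hypos.le
    rw [div_le_iff₀ (by positivity)] at hx
    linarith
  obtain ⟨hstar, hne2, hne3⟩ := count n m S ε hST hbud G hGS hSG y k1 hk1 hx hyhalf hlow3 (by
    rw [← hTd]
    have : (0 : ℝ) ≤ m' := Nat.cast_nonneg _
    have : 0 ≤ ε / 2 * T := by positivity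
    linarith)
  obtain ⟨G2, hG2⟩ : ∃ G2, G2 = G.filter fun k => 1 / 2 ≤ (2 : ℝ) ^ k * |y| := ⟨_, rfl⟩
  obtain ⟨G3, hG3⟩ : ∃ G3, G3 = G.filter fun k => k ≤ n := ⟨_, rfl⟩
  rw [← hG2, ← hG3, ← hTd] at hstar
  rw [← hG2] at hne2
  rw [← hG3] at hne3
  have hendsG : (ends G).card ≤ J + m := by
    have h0 := ends_sub S (S \ G) G hGS fun k h h' => Finset.mem_sdiff.2 ⟨h, h'⟩
    omega
  have hends2 : (ends G2).card ≤ m' := by
    have h0 : ends G2 ⊆ ends G := by
      intro k hk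
      unfold ends at hk ⊢
      rw [Finset.mem_filter, hG2, Finset.mem_filter, Finset.mem_filter] at hk
      rw [Finset.mem_filter]
      refine ⟨hk.1.1, fun h => hk.2 ⟨h, hk.1.2.trans ?_⟩⟩
      exact mul_le_mul_of_nonneg_right (pow_le_pow_right₀ (by norm_num) (Nat.le_succ k)) hypos.le
    have h5 := Finset.card_le_card h0
    omega
  have hends3 : (ends G3).card ≤ m' := by
    have h0 : ends G3 ⊆ ends G ∪ {n} := by
      intro k hk
      unfold ends at hk ⊢
      rw [Finset.mem_filter, hG3, Finset.mem_filter, Finset.mem_filter] at hk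
      rw [Finset.mem_union, Finset.mem_filter, Finset.mem_singleton]
      by_cases h : k + 1 ∈ G
      · right
        have h5 : ¬ k + 1 ≤ n := fun h' => hk.2 ⟨h, h'⟩
        omega
      · exact Or.inl ⟨hk.1.1, h⟩
    have h5 := (Finset.card_le_card h0).trans (Finset.card_union_le _ _)
    rw [Finset.card_singleton] at h5
    omega
  obtain ⟨l2f, X2, s2, a1, a2, a3, a4, a5, a6, a7⟩ := h3 false m' y G2 hne2 hends2 hyhalf
    (fun k hk => hgood2 k (by rw [hG2] at hk; exact (Finset.mem_filter.1 hk).1))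
    (fun k hk => by
      rw [hG2] at hk
      have := (Finset.mem_filter.1 hk).2
      show 1 / 2 ≤ ((2 : ℕ) : ℝ) ^ k * |y|
      push_cast
      exact this)
  obtain ⟨l3f, X3, s3, b1, b2, b3, b4, b5, b6, b7⟩ := h3 true m' y G3 hne3 hends3 hyhalf
    (fun k hk => hgood3 k (by rw [hG3] at hk; exact (Finset.mem_filter.1 hk).1))
    (fun k hk => by
      rw [hG3] at hk
      have := Finset.mem_filter.1 hk
      show 1 / 2 ≤ ((3 : ℕ) : ℝ) ^ k * |y|
      push_cast
      exact hlow3 k this.1 this.2)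
  have gf : ((gb false : ℕ) : ℝ) = 2 := by norm_num [gb]
  have gt : ((gb true : ℕ) : ℝ) = 3 := by norm_num [gb]
  rw [gf] at a6 a7
  rw [gt] at b6 b7
  have hM2 : (G2.max' hne2 : ℝ) * Real.log 2 ≤ T := by
    have h0 := G2.max'_mem hne2
    generalize G2.max' hne2 = q at h0 ⊢
    rw [hG2] at h0
    rw [hTd]
    exact hST _ (hGS (Finset.mem_filter.1 h0).1)
  have hM3n : G3.max' hne3 ≤ n := by
    have h0 := G3.max'_mem hne3
    generalize G3.max' hne3 = q at h0
    rw [hG3] at h0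
    exact (Finset.mem_filter.1 h0).2
  have hM3 : (G3.max' hne3 : ℝ) * Real.log 3 ≤ T := by
    rw [hTd]
    exact mul_le_mul_of_nonneg_right (by exact_mod_cast hM3n) (by linarith)
  obtain ⟨τ, hτ⟩ : ∃ τ, τ = -Real.log |y| := ⟨_, rfl⟩
  have hexpτ : Real.exp (-τ) = |y| := by
    rw [hτ, neg_neg, Real.exp_log hypos]
  have hτ0 : 0 < τ := by
    have h0 := Real.log_le_log hypos hyhalf
    rw [one_div, Real.log_inv] at h0
    rw [hτ]
    linarith
  -- the combined data
  obtain ⟨l, hl⟩ : ∃ l : Fin (m' + m') → ℕ, l = Fin.append l2f l3f := ⟨_, rfl⟩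
  obtain ⟨X, hX⟩ : ∃ X : Fin (m' + m') → ℚ, X = Fin.append X2 X3 := ⟨_, rfl⟩
  obtain ⟨s, hs⟩ : ∃ s : Fin (m' + m') → ℝ, s = Fin.append s2 s3 := ⟨_, rfl⟩
  have hsw : ∀ c, s c ≤ l c * Real.log (gb (g c)) := by
    intro c
    refine Fin.addCases (fun c => ?_) (fun c => ?_) c
    · simp only [hs, hl, hg, Fin.append_left]
      exact a4 c
    · simp only [hs, hl, hg, Fin.append_right]
      exact b4 c
  have hs0 : ∀ c, 0 ≤ s c := by
    intro c
    refine Fin.addCases (fun c => ?_) (fun c => ?_) c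
    · simp only [hs, Fin.append_left]
      exact a5 c
    · simp only [hs, Fin.append_right]
      exact b5 c
  have hwT : ∀ c, (l c : ℝ) * Real.log (gb (g c)) ≤ T := by
    intro c
    refine Fin.addCases (fun c => ?_) (fun c => ?_) c
    · simp only [hl, hg, Fin.append_left]
      rw [gf]
      exact (mul_le_mul_of_nonneg_right (by exact_mod_cast a1 c) (by linarith)).trans hM2
    · simp only [hl, hg, Fin.append_right]
      rw [gt]
      exact (mul_le_mul_of_nonneg_right (by exact_mod_cast b1 c) (by linarith)).trans hM3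
  have hlT : ∀ c, (l c : ℝ) ≤ 10 * T := by
    intro c
    have h0 : 1 / 2 ≤ Real.log (gb (g c)) := by
      cases hgc : g c
      · rw [gf]
        exact l2'
      · rw [gt]
        linarith
    have h5 := mul_le_mul_of_nonneg_left h0 (Nat.cast_nonneg (l c))
    linarith [hwT c]
  have hXc : ∀ c, ∃ k : ℤ, X c * (gb (g c) : ℚ) ^ l c = k := by
    intro c
    refine Fin.addCases (fun c => ?_) (fun c => ?_) c
    · simp only [hX, hl, hg, Fin.append_left]
      exact a2 c
    · simp only [hX, hl, hg, Fin.append_right]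
      exact b2 c
  have hXs : ∀ c, |(X c : ℝ)| ≤ 2 * Real.exp (-s c) := by
    intro c
    refine Fin.addCases (fun c => ?_) (fun c => ?_) c
    · simp only [hX, hs, Fin.append_left]
      exact a3 c
    · simp only [hX, hs, Fin.append_right]
      exact b3 c
  have hsum : ∑ c, ((l c : ℝ) * Real.log (gb (g c)) - s c) + τ -
      min ((G2.max' hne2 : ℝ) * Real.log 2) ((G3.max' hne3 : ℝ) * Real.log 3) ≤ -(ε / 2) * T := by
    have h0 : ∑ c, ((l c : ℝ) * Real.log (gb (g c)) - s c) =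
        ∑ c, ((l2f c : ℝ) * Real.log 2 - s2 c) + ∑ c, ((l3f c : ℝ) * Real.log 3 - s3 c) := by
      rw [Fin.sum_univ_add]
      simp only [hl, hs, hg, Fin.append_left, Fin.append_right]
      rw [gf, gt]
    have hmm : (0 : ℝ) ≤ m' := Nat.cast_nonneg m'
    have h5 : (m' : ℝ) * Real.log 2 ≤ m' * 1 := mul_le_mul_of_nonneg_left l2 hmm
    have h6 : (m' : ℝ) * Real.log 3 ≤ m' * 2 := mul_le_mul_of_nonneg_left l3 hmm
    have h7 : (G2.max' hne2 : ℝ) * Real.log 2 + (G3.max' hne3 : ℝ) * Real.log 3 -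
        min ((G2.max' hne2 : ℝ) * Real.log 2) ((G3.max' hne3 : ℝ) * Real.log 3) ≤ T := by
      rcases min_choice ((G2.max' hne2 : ℝ) * Real.log 2) ((G3.max' hne3 : ℝ) * Real.log 3) with
        h | h
      · rw [h]
        linarith
      · rw [h]
        linarith
    rw [h0]
    have hτ' : Real.log |y| = -τ := by rw [hτ, neg_neg]
    rw [hτ'] at a7 b7 hstar
    have h8 : ((G2.max' hne2 : ℝ) - G2.card + m') * Real.log 2 =
      (G2.max' hne2 : ℝ) * Real.log 2 - Real.log 2 * G2.card + m' * Real.log 2 := by ring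
    have h9 : ((G3.max' hne3 : ℝ) - G3.card + m') * Real.log 3 =
      (G3.max' hne3 : ℝ) * Real.log 3 - Real.log 3 * G3.card + m' * Real.log 3 := by ring
    rw [h8] at a7
    rw [h9] at b7
    linarith
  obtain ⟨σ, hσh, hστ, hσI⟩ := h2 (m' + m') (fun c => (l c : ℝ) * Real.log (gb (g c))) s
    (min ((G2.max' hne2 : ℝ) * Real.log 2) ((G3.max' hne3 : ℝ) * Real.log 3)) τ (ε / 2) T
    (by linarith) (by linarith) hsw hsum
  have hσ2 := hσh.trans (min_le_left _ _)
  have hσ3 := hσh.trans (min_le_right _ _)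
  have hεT : 0 ≤ ε / 2 / 2 * T := by positivity
  have hσT : σ ≤ T := hσ2.trans hM2
  have hσpos : 0 < σ := by linarith
  have c2 := a6 σ hσ2
  have c3 := b6 σ hσ3
  rw [← cast_filter_sum] at c2 c3
  obtain ⟨P, hP⟩ : ∃ P : Finset (Fin (m' + m')), P = Finset.univ.filter fun c => s c < σ :=
    ⟨_, rfl⟩
  have hval : ∑ c, (if c ∈ P then lam0 c else 0) * X c =
      ∑ c ∈ Finset.univ.filter (fun c => s2 c < σ), X2 c -
        ∑ c ∈ Finset.univ.filter (fun c => s3 c < σ), X3 c := by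
    rw [Fin.sum_univ_add, Finset.sum_filter, Finset.sum_filter, sub_eq_add_neg,
      ← Finset.sum_neg_distrib]
    congr 1
    · refine Finset.sum_congr rfl fun c _ => ?_
      simp only [hP, hX, hs, hlam0, Finset.mem_filter, Finset.mem_univ, true_and, Fin.append_left]
      split_ifs
      · rw [one_mul]
      · rw [zero_mul]
    · refine Finset.sum_congr rfl fun c _ => ?_
      simp only [hP, hX, hs, hlam0, Finset.mem_filter, Finset.mem_univ, true_and, Fin.append_right]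
      split_ifs
      · rw [neg_one_mul]
      · rw [zero_mul, neg_zero]
  have hzero := ht0 P T (hTt P) l X (fun c => s c - 1) σ
    (fun c => ⟨hlT c, by
      rw [abs_le]
      constructor
      · linarith [hs0 c]
      · linarith [hsw c, hwT c]⟩)
    (by
      rw [abs_le]
      constructor
      · linarith
      · linarith) hXc
    (fun c => by
      refine (hXs c).trans ?_
      have h0 : Real.exp (-(s c - 1)) = Real.exp 1 * Real.exp (-s c) := by
        rw [← Real.exp_add]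
        congr 1
        ring
      rw [h0]
      exact mul_le_mul_of_nonneg_right (by linarith [Real.exp_one_gt_d9]) (Real.exp_pos _).le)
    (by
      rw [hval, Rat.cast_sub]
      rw [abs_le] at c2 c3 ⊢
      constructor
      · linarith [c2.1, c2.2, c3.1, c3.2]
      · linarith [c2.1, c2.2, c3.1, c3.2])
    (fun I c0 hc0 hI => by
      have h0 := hσI I c0 hc0 fun c hc => by
        have h5 := hI c hc
        refine ⟨?_, by linarith [h5.2]⟩
        by_contra hn
        refine h5.1 (if_neg fun hcP => hn ?_)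
        rw [hP, Finset.mem_filter] at hcP
        exact hcP.2
      have h5 : ∑ c ∈ I, ((l c : ℝ) * Real.log (gb (g c)) - (s c - 1)) =
          ∑ c ∈ I, ((l c : ℝ) * Real.log (gb (g c)) - s c) + I.card := by
        have h9 : (I.card : ℝ) = ∑ c ∈ I, (1 : ℝ) := by
          rw [Finset.sum_const, nsmul_eq_mul, mul_one]
        rw [h9, ← Finset.sum_add_distrib]
        exact Finset.sum_congr rfl fun c _ => by ring
      have h6 : (I.card : ℝ) ≤ ((m' + m' : ℕ) : ℝ) := by
        have h7 := Finset.card_le_univ I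
        rw [Fintype.card_fin] at h7
        exact_mod_cast h7
      have h8 : ε / 2 / (2 * (((m' + m' : ℕ) : ℝ) + 1)) = 2 * δ := by
        rw [hδd]
        field_simp
        ring
      rw [h8] at h0
      rw [h5]
      linarith)
  rw [hval] at hzero
  refine core h4 m' y (Real.exp (-σ) / 2) l2f l3f X2 X3 a2 b2 _ _ (sub_eq_zero.1 hzero) hyhalf c2 ?_
  rw [← hexpτ]
  have h0 : Real.exp (-σ) ≤ Real.exp (-τ) := Real.exp_le_exp.2 (by linarith)
  linarith [Real.exp_pos (-σ)]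

end Pool.Agent.Helper39.Dn
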